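import Mathlib

/-!
# Oriented link diagrams and the warping span

Oriented link diagrams (on the sphere, up to isotopy) are encoded by signed Gauss diagrams
(= signed Gauss codes) of genus zero.
-/

set_option autoImplicit false

namespace Pool.Agent.Lib.MP_89478c_gt

/-- A signed Gauss diagram, i.e. the combinatorial data of an oriented link diagram.

* `X` is the finite set of crossings, `pos x = true` iff the crossing `x` is positive.
* At each crossing `x` there are two passages: `(x, true)` is the passage along the over-strand and
  `(x, false)` the passage along the under-strand.  The oriented edge of the diagram which leaves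
  the crossing `x` along the passage `(x, b)` is also denoted by `(x, b)`.
* `next e` is the passage at which the oriented edge `e` arrives.  So, travelling along a component
  of the link, after the passage (or edge) `e` comes the passage (or edge) `next e`, and the
  components of the link which have a crossing are the cycles of the permutation `next`.
* `loops` is the number of components without crossings. -/
structure GaussDiagram where
  X : Type
  [fintypeX : Fintype X]
  [decEqX : DecidableEq X]
  pos : X → Bool
  next : Equiv.Perm (X × Bool)
  loops : ℕ

attribute [instance] GaussDiagram.fintypeX GaussDiagram.decEqX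

namespace GaussDiagram

variable (D : GaussDiagram)

/-- The oriented edges of the diagram: `(x, b)` is the edge which leaves the crossing `x` along its
over-strand (`b = true`) or under-strand (`b = false`). -/
abbrev Edge : Type := D.X × Bool

/-- The edge which arrives at the passage `p = (x, b)`. -/
def arriving (p : D.X × Bool) : D.Edge := D.next.symm p

/-- The edge sides: `(e, true)` is the left side and `(e, false)` is the right side of the oriented
edge `e`. -/
abbrev Side : Type := D.Edge × Bool

/-- The four corners at a crossing `x`.  Let `b` be the over-strand if `x` is positive and the
under-strand if `x` is negative, and let `c` be the other strand at `x`.  Then `c` crosses `b` from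
the right to the left.  Each of the four corners at `x` is a corner between one of the two edges of
`b` and one of the two edges of `c`, and `Corner` relates the two edge sides which meet there. -/
inductive Corner : D.Side → D.Side → Prop
  | outOut (x : D.X) : Corner ((x, D.pos x), true) ((x, !D.pos x), false)
  | inOut (x : D.X) : Corner (D.arriving (x, D.pos x), true) ((x, !D.pos x), true)
  | inIn (x : D.X) : Corner (D.arriving (x, D.pos x), false) (D.arriving (x, !D.pos x), true)
  | outIn (x : D.X) : Corner ((x, D.pos x), false) (D.arriving (x, !D.pos x), false)

/-- The faces of the closed oriented surface obtained from the diagram by gluing a disk to every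
boundary walk: classes of edge sides under the equivalence relation generated by `Corner`. -/
abbrev Face : Type := Quot D.Corner

/-- The connected components of the underlying 4-valent graph: classes of crossings under the
equivalence relation generated by being joined by an edge. -/
abbrev GraphComponent : Type := Quot (fun x y : D.X => ∃ b : Bool, (D.next (x, b)).1 = y)

/-- The diagram is planar (lives on the sphere) iff Euler's formula `V - E + F = 2 C` holds, where
`V` is the number of crossings, `E = 2 V` the number of edges, `F` the number of faces and `C` the
number of connected components of the underlying 4-valent graph. -/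
def Planar : Prop :=
  (Nat.card D.X : ℤ) - Nat.card D.Edge + Nat.card D.Face = 2 * Nat.card D.GraphComponent

/-- The weight `d_{i+1}` of the `(i+1)`-st edge of the component of the edge `e`, when the edges
of this component are listed as `e = e_1, e_2 = next e, e_3, …`: the first weight is `0`, and the
weight increases by one if the component passes from `e_i` to `e_{i+1}` through a crossing as the
over-strand and decreases by one if it does so as the under-strand. -/
def weight (e : D.Edge) : ℕ → ℤ
  | 0 => 0
  | i + 1 => weight e i + if ((D.next^[i + 1]) e).2 = true then 1 else -1

/-- The number `m` of edges of the component of the edge `e`. -/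
noncomputable def numEdges (e : D.Edge) : ℕ := Function.minimalPeriod D.next e

/-- `warp(D) = max_C w(C)`, with `w(C) = (1/2) max {d_i - d_j - 1 : 1 ≤ i, j ≤ m}`, where the
maximum is also taken over all choices of the starting edge `e_1 = e` of the component `C`.  For a
diagram without crossings the set is empty and `warp(D) = sSup ∅ = 0`. -/
noncomputable def warp : ℝ :=
  sSup {r : ℝ | ∃ (e : D.Edge) (i j : ℕ), i < D.numEdges e ∧ j < D.numEdges e ∧
    r = ((D.weight e i : ℝ) - D.weight e j - 1) / 2}

/-- The set in the definition of `warp` is finite, so `warp` is a genuine maximum. -/
theorem warp_set_finite : Set.Finite {r : ℝ | ∃ (e : D.Edge) (i j : ℕ), i < D.numEdges e ∧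
    j < D.numEdges e ∧ r = ((D.weight e i : ℝ) - D.weight e j - 1) / 2} := by
  apply Set.Finite.subset (Set.finite_iUnion fun e : D.Edge =>
    ((Finset.range (D.numEdges e) ×ˢ Finset.range (D.numEdges e)).finite_toSet.image
      fun p : ℕ × ℕ => ((D.weight e p.1 : ℝ) - D.weight e p.2 - 1) / 2))
  rintro r ⟨e, i, j, hi, hj, rfl⟩
  exact Set.mem_iUnion.mpr ⟨e, (i, j), by simp [hi, hj], rfl⟩

/-- Every value `(d_i - d_j - 1) / 2` is at most `warp(D)`. -/
theorem le_warp (e : D.Edge) (i j : ℕ) (hi : i < D.numEdges e) (hj : j < D.numEdges e) :
    ((D.weight e i : ℝ) - D.weight e j - 1) / 2 ≤ D.warp :=
  le_csSup D.warp_set_finite.bddAbove ⟨e, i, j, hi, hj, rfl⟩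

end GaussDiagram

/-- An oriented link diagram: a signed Gauss diagram of genus zero. -/
structure LinkDiagram extends GaussDiagram where
  planar : toGaussDiagram.Planar

/-- The diagram `D'` is obtained from the diagram `D` by a Reidemeister move of type II which
creates two crossings `y` and `z`: a piece of the edge `e` of `D` is pushed over a piece of another
edge `f` of `D`.  The old crossings are embedded in the new ones by `ι`.  The two new crossings have
opposite signs, the edge `e` is replaced by a path which passes first over `y` and then over `z`,
and the edge `f` is replaced by a path which passes under `y` and `z` in one of the two orders.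
(Both diagrams are planar, so the two edges joining `y` and `z` bound a bigon.) -/
def ReidemeisterII (D D' : LinkDiagram) : Prop :=
  ∃ (ι : D.X → D'.X) (y z : D'.X) (e f : D.Edge),
    Function.Injective ι ∧ y ≠ z ∧ y ∉ Set.range ι ∧ z ∉ Set.range ι ∧
    (∀ x' : D'.X, x' = y ∨ x' = z ∨ x' ∈ Set.range ι) ∧
    (∀ x : D.X, D'.pos (ι x) = D.pos x) ∧ D'.pos y ≠ D'.pos z ∧ D'.loops = D.loops ∧
    e ≠ f ∧
    (D'.next (Prod.map ι id e) = (y, true) ∧ D'.next (y, true) = (z, true) ∧
      D'.next (z, true) = Prod.map ι id (D.next e)) ∧
    ((D'.next (Prod.map ι id f) = (y, false) ∧ D'.next (y, false) = (z, false) ∧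
        D'.next (z, false) = Prod.map ι id (D.next f)) ∨
      (D'.next (Prod.map ι id f) = (z, false) ∧ D'.next (z, false) = (y, false) ∧
        D'.next (y, false) = Prod.map ι id (D.next f))) ∧
    ∀ g : D.Edge, g ≠ e → g ≠ f → D'.next (Prod.map ι id g) = Prod.map ι id (D.next g)

end Pool.Agent.Lib.MP_89478c_gt
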