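import Mathlib
import Pool.Agent.Lib.MP_89478c_gt.Defs

/-!
# Planar link diagrams are checkerboard colourable
-/

set_option autoImplicit false

namespace Pool.Agent.Lib.MP_89478c_gt

open Module

namespace GaussDiagram

variable (D : GaussDiagram)

noncomputable instance : Fintype D.Face := Fintype.ofFinite _

noncomputable instance : Fintype D.GraphComponent := Fintype.ofFinite _

/-- The boundary map from faces to edges, mod 2. -/
def bdry2 : (D.Face → ZMod 2) →ₗ[ZMod 2] (D.Edge → ZMod 2) where
  toFun f := fun e => f (Quot.mk _ (e, true)) + f (Quot.mk _ (e, false))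
  map_add' f g := by ext e; simp only [Pi.add_apply]; ring
  map_smul' c f := by ext e; simp only [Pi.smul_apply, smul_eq_mul, RingHom.id_apply]; ring

/-- The incidence matrix of the underlying graph, mod 2. -/
def inc : Matrix D.X D.Edge (ZMod 2) :=
  fun x e => (if e.1 = x then 1 else 0) + (if (D.next e).1 = x then 1 else 0)

theorem zmod2_add_self (a : ZMod 2) : a + a = 0 := by
  revert a; decide

theorem zmod2_eq_of_add_eq_zero {a b : ZMod 2} (h : a + b = 0) : a = b := by
  revert a b; decide

theorem zmod2_add_eq_zero_of_eq {a b : ZMod 2} (h : a = b) : a + b = 0 := by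
  revert a b; decide

theorem inc_mulVec (g : D.Edge → ZMod 2) (x : D.X) :
    D.inc.mulVec g x = g (x, true) + g (x, false) + g (D.arriving (x, true)) +
      g (D.arriving (x, false)) := by
  have h1 : ∑ e : D.Edge, (if e.1 = x then (1 : ZMod 2) else 0) * g e =
      g (x, true) + g (x, false) := by
    rw [Fintype.sum_prod_type]
    simp only [ite_mul, one_mul, zero_mul]
    simp
  have h2 : ∑ e : D.Edge, (if (D.next e).1 = x then (1 : ZMod 2) else 0) * g e =
      g (D.arriving (x, true)) + g (D.arriving (x, false)) := by
    rw [← Equiv.sum_comp D.next.symm]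
    simp only [Equiv.apply_symm_apply]
    rw [Fintype.sum_prod_type]
    simp only [ite_mul, one_mul, zero_mul]
    simp [arriving]
  simp only [Matrix.mulVec, dotProduct, inc, add_mul, Finset.sum_add_distrib]
  rw [h1, h2]
  ring

theorem inc_bdry2 (f : D.Face → ZMod 2) : D.inc.mulVec (D.bdry2 f) = 0 := by
  funext x
  rw [inc_mulVec]
  have h1 := congrArg f (Quot.sound (Corner.outOut (D := D) x))
  have h2 := congrArg f (Quot.sound (Corner.inOut (D := D) x))
  have h3 := congrArg f (Quot.sound (Corner.inIn (D := D) x))
  have h4 := congrArg f (Quot.sound (Corner.outIn (D := D) x))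
  simp only [bdry2, LinearMap.coe_mk, AddHom.coe_mk, Pi.zero_apply]
  cases hx : D.pos x <;> rw [hx] at h1 h2 h3 h4 <;> simp only [Bool.not_true, Bool.not_false] at h1 h2 h3 h4
  · rw [h1, h2, h3, h4]
    generalize f (Quot.mk _ ((x, true), false)) = a
    generalize f (Quot.mk _ ((x, true), true)) = b
    generalize f (Quot.mk _ (D.arriving (x, true), true)) = c
    generalize f (Quot.mk _ (D.arriving (x, true), false)) = d
    revert a b c d; decide
  · rw [h1, h2, h3, h4]
    generalize f (Quot.mk _ ((x, false), false)) = a
    generalize f (Quot.mk _ ((x, false), true)) = b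
    generalize f (Quot.mk _ (D.arriving (x, false), true)) = c
    generalize f (Quot.mk _ (D.arriving (x, false), false)) = d
    revert a b c d; decide

/-- Functions on the edges which agree at every crossing factor through the graph components. -/
theorem ker_bdry2_aux {f : D.Face → ZMod 2} (hf : D.bdry2 f = 0) (x : D.X) :
    f (Quot.mk _ ((x, false), true)) = f (Quot.mk _ ((x, true), true)) ∧
    f (Quot.mk _ (D.arriving (x, true), true)) = f (Quot.mk _ ((x, true), true)) ∧
    f (Quot.mk _ (D.arriving (x, false), true)) = f (Quot.mk _ ((x, true), true)) := by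
  have hlr : ∀ e : D.Edge, f (Quot.mk _ (e, true)) = f (Quot.mk _ (e, false)) := by
    intro e
    have := congrFun hf e
    simp only [bdry2, LinearMap.coe_mk, AddHom.coe_mk, Pi.zero_apply] at this
    exact zmod2_eq_of_add_eq_zero this
  have h1 := congrArg f (Quot.sound (Corner.outOut (D := D) x))
  have h2 := congrArg f (Quot.sound (Corner.inOut (D := D) x))
  have h3 := congrArg f (Quot.sound (Corner.inIn (D := D) x))
  have h4 := congrArg f (Quot.sound (Corner.outIn (D := D) x))
  cases hx : D.pos x <;> rw [hx] at h1 h2 h3 h4 <;>
    simp only [Bool.not_true, Bool.not_false, ← hlr] at h1 h2 h3 h4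
  · exact ⟨h1, by rw [← h4, h1], h2⟩
  · exact ⟨h1.symm, by rw [h2, h1], h4.symm⟩

theorem finrank_ker_bdry2_le :
    finrank (ZMod 2) (LinearMap.ker D.bdry2) ≤ Fintype.card D.GraphComponent := by
  let F : LinearMap.ker D.bdry2 →ₗ[ZMod 2] (D.GraphComponent → ZMod 2) :=
    { toFun := fun f => Quot.lift (fun x => (f : D.Face → ZMod 2) (Quot.mk _ ((x, true), true))) (by
        rintro x y ⟨b, hb⟩
        have hf : D.bdry2 (f : D.Face → ZMod 2) = 0 := f.2
        have hx := D.ker_bdry2_aux hf x
        have hy := D.ker_bdry2_aux hf y
        have e1 : (f : D.Face → ZMod 2) (Quot.mk _ ((x, b), true)) =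
            (f : D.Face → ZMod 2) (Quot.mk _ ((x, true), true)) := by
          cases b
          · exact hx.1
          · rfl
        have e2 : (f : D.Face → ZMod 2) (Quot.mk _ ((x, b), true)) =
            (f : D.Face → ZMod 2) (Quot.mk _ ((y, true), true)) := by
          have harr : D.arriving (y, (D.next (x, b)).2) = (x, b) := by
            unfold arriving
            rw [Equiv.symm_apply_eq]
            exact Prod.ext hb.symm rfl
          rw [← harr]
          cases (D.next (x, b)).2
          · exact hy.2.2
          · exact hy.2.1
        simpa using e1.symm.trans e2)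
      map_add' := by
        intro f g
        funext c
        induction c using Quot.ind
        rfl
      map_smul' := by
        intro c f
        funext q
        induction q using Quot.ind
        rfl }
  have hinj : Function.Injective F := by
    rw [← LinearMap.ker_eq_bot, LinearMap.ker_eq_bot']
    intro f hf
    have hb : D.bdry2 (f : D.Face → ZMod 2) = 0 := f.2
    have h0 : ∀ x : D.X, (f : D.Face → ZMod 2) (Quot.mk _ ((x, true), true)) = 0 := by
      intro x
      exact congrFun hf (Quot.mk _ x)
    apply Subtype.ext
    funext q
    induction q using Quot.ind with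
    | mk s =>
      obtain ⟨⟨x, b⟩, s⟩ := s
      have hx := D.ker_bdry2_aux hb x
      have h1 : (f : D.Face → ZMod 2) (Quot.mk _ ((x, b), true)) = 0 := by
        cases b
        · rw [hx.1, h0]
        · exact h0 x
      cases s
      · have := congrFun hb (x, b)
        simp only [bdry2, LinearMap.coe_mk, AddHom.coe_mk, Pi.zero_apply] at this
        rw [h1, zero_add] at this
        exact this
      · exact h1
  have := LinearMap.finrank_le_finrank_of_injective hinj
  simpa using this

theorem finrank_ker_incT_le :
    finrank (ZMod 2) (LinearMap.ker D.inc.transpose.mulVecLin) ≤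
      Fintype.card D.GraphComponent := by
  have key : ∀ g : D.X → ZMod 2, D.inc.transpose.mulVec g = 0 → ∀ x b,
      g x = g (D.next (x, b)).1 := by
    intro g hg x b
    have h := congrFun hg (x, b)
    have h' : D.inc.transpose.mulVec g (x, b) = g x + g (D.next (x, b)).1 := by
      simp only [Matrix.mulVec, dotProduct, Matrix.transpose_apply, inc, add_mul,
        Finset.sum_add_distrib, ite_mul, one_mul, zero_mul]
      simp
    rw [h'] at h
    exact zmod2_eq_of_add_eq_zero h
  let F : LinearMap.ker D.inc.transpose.mulVecLin →ₗ[ZMod 2] (D.GraphComponent → ZMod 2) :=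
    { toFun := fun f => Quot.lift (fun x => (f : D.X → ZMod 2) x) (by
        rintro x y ⟨b, hb⟩
        have hf : D.inc.transpose.mulVec (f : D.X → ZMod 2) = 0 := f.2
        rw [key _ hf x b, hb])
      map_add' := by
        intro f g
        funext c
        induction c using Quot.ind
        rfl
      map_smul' := by
        intro c f
        funext q
        induction q using Quot.ind
        rfl }
  have hinj : Function.Injective F := by
    rw [← LinearMap.ker_eq_bot, LinearMap.ker_eq_bot']
    intro f hf
    apply Subtype.ext
    funext x
    exact congrFun hf (Quot.mk _ x)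
  have := LinearMap.finrank_le_finrank_of_injective hinj
  simpa using this

/-- Exactness in the middle for planar diagrams. -/
theorem range_bdry2_eq (hD : D.Planar) :
    LinearMap.range D.bdry2 = LinearMap.ker D.inc.mulVecLin := by
  apply Submodule.eq_of_le_of_finrank_le
  · rintro _ ⟨f, rfl⟩
    exact D.inc_bdry2 f
  · have h1 := LinearMap.finrank_range_add_finrank_ker D.bdry2
    have h2 := LinearMap.finrank_range_add_finrank_ker D.inc.mulVecLin
    have h3 := LinearMap.finrank_range_add_finrank_ker D.inc.transpose.mulVecLin
    have h4 : finrank (ZMod 2) (LinearMap.range D.inc.transpose.mulVecLin) =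
        finrank (ZMod 2) (LinearMap.range D.inc.mulVecLin) := Matrix.rank_transpose D.inc
    have h5 := D.finrank_ker_bdry2_le
    have h6 := D.finrank_ker_incT_le
    simp only [finrank_fintype_fun_eq_card] at h1 h2 h3
    unfold Planar at hD
    simp only [Nat.card_eq_fintype_card] at hD
    have h7 : Fintype.card D.Edge = 2 * Fintype.card D.X := by
      rw [Fintype.card_prod, Fintype.card_bool, mul_comm]
    omega

/-- **Checkerboard colouring.** For a planar diagram there is a two-colouring `χ` of the edges
(the colour of the left-hand face) which changes along the components at every crossing, and which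
is different on the two edges leaving any crossing. -/
theorem exists_checkerboard (hD : D.Planar) : ∃ χ : D.Edge → ZMod 2,
    (∀ x, χ (x, true) + χ (x, false) = 1) ∧ ∀ e, χ e + χ (D.next e) = 1 := by
  have hone : (fun _ => 1 : D.Edge → ZMod 2) ∈ LinearMap.ker D.inc.mulVecLin := by
    rw [LinearMap.mem_ker, Matrix.mulVecLin_apply]
    funext x
    rw [inc_mulVec]
    show (1 + 1 + 1 + 1 : ZMod 2) = 0
    decide
  rw [← D.range_bdry2_eq hD] at hone
  obtain ⟨f, hf⟩ := hone
  have hlr : ∀ e : D.Edge, f (Quot.mk _ (e, true)) + f (Quot.mk _ (e, false)) = 1 :=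
    fun e => congrFun hf e
  have aux : ∀ a b c d : ZMod 2, a + b = 1 → c + d = 1 → a = d → a + c = 1 := by decide
  have aux' : ∀ a b c d : ZMod 2, a + b = 1 → c + d = 1 → b = c → a + c = 1 := by decide
  have auxs : ∀ a b c d : ZMod 2, a + b = 1 → c + d = 1 → b = d → a = c := by decide
  have aux3 : ∀ a b c : ZMod 2, a + b = 1 → c = b → a + c = 1 := by decide
  have main : ∀ x : D.X, f (Quot.mk _ ((x, true), true)) + f (Quot.mk _ ((x, false), true)) = 1 ∧
      f (Quot.mk _ (D.arriving (x, true), true)) + f (Quot.mk _ ((x, true), true)) = 1 ∧
      f (Quot.mk _ (D.arriving (x, false), true)) + f (Quot.mk _ ((x, false), true)) = 1 := by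
    intro x
    have h1 := congrArg f (Quot.sound (Corner.outOut (D := D) x))
    have h2 := congrArg f (Quot.sound (Corner.inOut (D := D) x))
    have h3 := congrArg f (Quot.sound (Corner.inIn (D := D) x))
    have h4 := congrArg f (Quot.sound (Corner.outIn (D := D) x))
    have l1 := hlr (x, true)
    have l2 := hlr (x, false)
    have l3 := hlr (D.arriving (x, true))
    have l4 := hlr (D.arriving (x, false))
    cases hx : D.pos x <;> rw [hx] at h1 h2 h3 h4 <;>
      simp only [Bool.not_true, Bool.not_false] at h1 h2 h3 h4
    all_goals
      generalize f (Quot.mk _ ((x, true), true)) = a1 at *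
      generalize f (Quot.mk _ ((x, true), false)) = a2 at *
      generalize f (Quot.mk _ ((x, false), true)) = b1 at *
      generalize f (Quot.mk _ ((x, false), false)) = b2 at *
      generalize f (Quot.mk _ (D.arriving (x, true), true)) = c1 at *
      generalize f (Quot.mk _ (D.arriving (x, true), false)) = c2 at *
      generalize f (Quot.mk _ (D.arriving (x, false), true)) = d1 at *
      generalize f (Quot.mk _ (D.arriving (x, false), false)) = d2 at *
      clear hf hlr
      revert a1 a2 b1 b2 c1 c2 d1 d2
      decide
  refine ⟨fun e => f (Quot.mk _ (e, true)), fun x => (main x).1, ?_⟩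
  intro e
  have harr : D.arriving (D.next e) = e := by
    unfold arriving
    exact D.next.symm_apply_apply e
  have hm := main (D.next e).1
  have hm' : f (Quot.mk _ (D.arriving (D.next e), true)) + f (Quot.mk _ (D.next e, true)) = 1 := by
    generalize D.next e = q at hm
    obtain ⟨y, b⟩ := q
    cases b
    · exact hm.2.2
    · exact hm.2.1
  rw [harr] at hm'
  exact hm'

end GaussDiagram

end Pool.Agent.Lib.MP_89478c_gt
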