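import Mathlib
import Pool.Agent.Lib.MP_89478c_gt.Defs
import Pool.Agent.Lib.MP_89478c_gt.Checkerboard

/-!
# A Reidemeister II move just before a crossing
-/

set_option autoImplicit false

namespace Pool.Agent.Lib.MP_89478c_gt

namespace GaussDiagram

section construction

variable (D : GaussDiagram) (x₀ : D.X)

/-- New crossings: `Sum.inr false` (met first) and `Sum.inr true` (met second), just before the
crossing `x₀`. -/
def insNextFun : (D.X ⊕ Bool) × Bool → (D.X ⊕ Bool) × Bool
  | (Sum.inl x, b) =>
      if (D.next (x, b)).1 = x₀ then (Sum.inr false, !(D.next (x, b)).2)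
      else (Sum.inl (D.next (x, b)).1, (D.next (x, b)).2)
  | (Sum.inr false, b) => (Sum.inr true, b)
  | (Sum.inr true, b) => (Sum.inl x₀, !b)

def insPrevFun : (D.X ⊕ Bool) × Bool → (D.X ⊕ Bool) × Bool
  | (Sum.inl x, b) =>
      if x = x₀ then (Sum.inr true, !b)
      else (Sum.inl (D.next.symm (x, b)).1, (D.next.symm (x, b)).2)
  | (Sum.inr true, b) => (Sum.inr false, b)
  | (Sum.inr false, b) => (Sum.inl (D.next.symm (x₀, !b)).1, (D.next.symm (x₀, !b)).2)

def insNext : Equiv.Perm ((D.X ⊕ Bool) × Bool) where
  toFun := D.insNextFun x₀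
  invFun := D.insPrevFun x₀
  left_inv := by
    rintro ⟨x | c, b⟩
    · simp only [insNextFun]
      split_ifs with h
      · simp only [insPrevFun, Bool.not_not]
        have : (x₀, (D.next (x, b)).2) = D.next (x, b) := Prod.ext h.symm rfl
        rw [this, Equiv.symm_apply_apply]
      · simp only [insPrevFun]
        rw [if_neg h, Prod.mk.eta, Equiv.symm_apply_apply]
    · cases c <;> simp [insNextFun, insPrevFun]
  right_inv := by
    rintro ⟨x | c, b⟩
    · simp only [insPrevFun]
      split_ifs with h
      · simp [insNextFun, h]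
      · simp only [insNextFun, Prod.mk.eta, Equiv.apply_symm_apply]
        rw [if_neg h]
    · cases c <;> simp [insNextFun, insPrevFun]

/-- The diagram with a bigon inserted just before the crossing `x₀`. -/
def ins : GaussDiagram where
  X := D.X ⊕ Bool
  pos := Sum.elim D.pos (fun c => if c then D.pos x₀ else !D.pos x₀)
  next := D.insNext x₀
  loops := D.loops

end construction

variable {D : GaussDiagram} {x₀ : D.X}

/-- The old crossings. -/
def old (x : D.X) : (D.ins x₀).X := Sum.inl x

/-- The first new crossing. -/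
def yy : (D.ins x₀).X := Sum.inr false

/-- The second new crossing. -/
def zz : (D.ins x₀).X := Sum.inr true

/-- The old edges. -/
def oldE (e : D.Edge) : (D.ins x₀).Edge := (old e.1, e.2)

theorem next_old (e : D.Edge) : (D.ins x₀).next (oldE e) =
    if (D.next e).1 = x₀ then (yy, !(D.next e).2) else oldE (D.next e) := rfl

theorem next_yy (b : Bool) : (D.ins x₀).next (yy, b) = (zz, b) := rfl

theorem next_zz (b : Bool) : (D.ins x₀).next (zz, b) = (old x₀, !b) := rfl

theorem arr_old (x : D.X) (b : Bool) : (D.ins x₀).arriving (old x, b) =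
    if x = x₀ then (zz, !b) else oldE (D.arriving (x, b)) := rfl

theorem arr_zz (b : Bool) : (D.ins x₀).arriving (zz, b) = (yy, b) := rfl

theorem arr_yy (b : Bool) : (D.ins x₀).arriving (yy, b) = oldE (D.arriving (x₀, !b)) := rfl

theorem pos_old (x : D.X) : (D.ins x₀).pos (old x) = D.pos x := rfl

theorem pos_zz : (D.ins x₀).pos zz = D.pos x₀ := rfl

theorem pos_yy : (D.ins x₀).pos yy = !D.pos x₀ := rfl

theorem ins_cases {motive : (D.ins x₀).X → Prop} (h1 : ∀ x, motive (old x)) (h2 : motive yy)
    (h3 : motive zz) (x : (D.ins x₀).X) : motive x := by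
  rcases x with x | c
  · exact h1 x
  · cases c
    · exact h2
    · exact h3

/-- The map from the sides of the new diagram to the faces of the old one plus two bigons. -/
def sideMap : (D.ins x₀).Side → D.Face ⊕ Bool
  | ((Sum.inl x, b), s) => Sum.inl (Quot.mk _ ((x, b), s))
  | ((Sum.inr true, b), s) =>
      if (b == s) = D.pos x₀ then Sum.inr true else Sum.inl (Quot.mk _ (D.arriving (x₀, !b), s))
  | ((Sum.inr false, b), s) =>
      if (b == s) = D.pos x₀ then Sum.inl (Quot.mk _ (D.arriving (x₀, b), s)) else Sum.inr false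

theorem sideMap_old (e : D.Edge) (s : Bool) :
    sideMap (x₀ := x₀) (oldE e, s) = Sum.inl (Quot.mk _ (e, s)) := rfl

theorem sideMap_old' (x : D.X) (b : Bool) (s : Bool) :
    sideMap (x₀ := x₀) ((old x, b), s) = Sum.inl (Quot.mk _ ((x, b), s)) := rfl

theorem sideMap_zz (b s : Bool) : sideMap (D := D) (x₀ := x₀) ((zz, b), s) =
    if (b == s) = D.pos x₀ then Sum.inr true else Sum.inl (Quot.mk _ (D.arriving (x₀, !b), s)) :=
  rfl

theorem sideMap_yy (b s : Bool) : sideMap (D := D) (x₀ := x₀) ((yy, b), s) =
    if (b == s) = D.pos x₀ then Sum.inl (Quot.mk _ (D.arriving (x₀, b), s)) else Sum.inr false :=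
  rfl

theorem sideMap_corner (a b : (D.ins x₀).Side) (h : (D.ins x₀).Corner a b) :
    sideMap (x₀ := x₀) a = sideMap b := by
  cases h with
  | outOut x =>
    induction x using ins_cases with
    | h1 x =>
      rw [pos_old, sideMap_old', sideMap_old']
      exact congrArg Sum.inl (Quot.sound (Corner.outOut (D := D) x))
    | h2 =>
      rw [pos_yy, sideMap_yy, sideMap_yy]
      rcases (D.pos x₀).eq_false_or_eq_true with hp | hp <;> simp [hp]
    | h3 =>
      rw [pos_zz, sideMap_zz, sideMap_zz]
      rcases (D.pos x₀).eq_false_or_eq_true with hp | hp <;> simp [hp]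
  | inOut x =>
    induction x using ins_cases with
    | h1 x =>
      have := Quot.sound (Corner.inOut (D := D) x)
      rw [pos_old, arr_old]
      by_cases hx : x = x₀
      · subst hx
        rw [if_pos rfl, sideMap_zz, sideMap_old', ← this]
        rcases (D.pos x).eq_false_or_eq_true with hp | hp <;> simp [hp]
      · rw [if_neg hx, sideMap_old, sideMap_old', this]
    | h2 =>
      rw [pos_yy, arr_yy, sideMap_yy, sideMap_old]
      rcases (D.pos x₀).eq_false_or_eq_true with hp | hp <;> simp [hp]
    | h3 =>
      rw [pos_zz, arr_zz, sideMap_zz, sideMap_yy]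
      rcases (D.pos x₀).eq_false_or_eq_true with hp | hp <;> simp [hp]
  | inIn x =>
    induction x using ins_cases with
    | h1 x =>
      have := Quot.sound (Corner.inIn (D := D) x)
      rw [pos_old, arr_old, arr_old]
      by_cases hx : x = x₀
      · subst hx
        rw [if_pos rfl, if_pos rfl, sideMap_zz, sideMap_zz]
        rcases (D.pos x).eq_false_or_eq_true with hp | hp <;> simp [hp]
      · rw [if_neg hx, if_neg hx, sideMap_old, sideMap_old, this]
    | h2 =>
      have := Quot.sound (Corner.inIn (D := D) x₀)
      rw [pos_yy, arr_yy, arr_yy, sideMap_old, sideMap_old, Bool.not_not, this]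
    | h3 =>
      rw [pos_zz, arr_zz, arr_zz, sideMap_yy, sideMap_yy]
      rcases (D.pos x₀).eq_false_or_eq_true with hp | hp <;> simp [hp]
  | outIn x =>
    induction x using ins_cases with
    | h1 x =>
      have := Quot.sound (Corner.outIn (D := D) x)
      rw [pos_old, arr_old]
      by_cases hx : x = x₀
      · subst hx
        rw [if_pos rfl, sideMap_zz, sideMap_old', this]
        rcases (D.pos x).eq_false_or_eq_true with hp | hp <;> simp [hp]
      · rw [if_neg hx, sideMap_old, sideMap_old', this]
    | h2 =>
      rw [pos_yy, arr_yy, sideMap_yy, sideMap_old]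
      rcases (D.pos x₀).eq_false_or_eq_true with hp | hp <;> simp [hp]
    | h3 =>
      rw [pos_zz, arr_zz, sideMap_zz, sideMap_yy]
      rcases (D.pos x₀).eq_false_or_eq_true with hp | hp <;> simp [hp]

/-- The class of a side of the new diagram. -/
def cls (s : (D.ins x₀).Side) : (D.ins x₀).Face := Quot.mk _ s

theorem out_z : cls (D := D) (x₀ := x₀) ((zz, D.pos x₀), true) = cls ((zz, !D.pos x₀), false) :=
  Quot.sound (Corner.outOut (D := D.ins x₀) zz)

theorem out_y : cls (D := D) (x₀ := x₀) ((yy, !D.pos x₀), true) = cls ((yy, D.pos x₀), false) := by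
  have := Quot.sound (Corner.outOut (D := D.ins x₀) yy)
  rw [pos_yy, Bool.not_not] at this
  exact this

theorem left_y : cls (D := D) (x₀ := x₀) (oldE (D.arriving (x₀, D.pos x₀)), true) =
    cls ((yy, D.pos x₀), true) := by
  have := Quot.sound (Corner.inOut (D := D.ins x₀) yy)
  rw [pos_yy, arr_yy, Bool.not_not] at this
  exact this

theorem left_z : cls (D := D) (x₀ := x₀) ((yy, D.pos x₀), true) =
    cls ((zz, !D.pos x₀), true) :=
  Quot.sound (Corner.inOut (D := D.ins x₀) zz)

theorem left_x : cls (D := D) (x₀ := x₀) ((zz, !D.pos x₀), true) =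
    cls ((old x₀, !D.pos x₀), true) := by
  have := Quot.sound (Corner.inOut (D := D.ins x₀) (old x₀))
  rw [pos_old, arr_old, if_pos rfl] at this
  exact this

theorem right_x : cls (D := D) (x₀ := x₀) ((old x₀, D.pos x₀), false) =
    cls ((zz, D.pos x₀), false) := by
  have := Quot.sound (Corner.outIn (D := D.ins x₀) (old x₀))
  rw [pos_old, arr_old, if_pos rfl, Bool.not_not] at this
  exact this

theorem right_z : cls (D := D) (x₀ := x₀) ((zz, D.pos x₀), false) =
    cls ((yy, !D.pos x₀), false) :=
  Quot.sound (Corner.outIn (D := D.ins x₀) zz)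

theorem right_y : cls (D := D) (x₀ := x₀) ((yy, !D.pos x₀), false) =
    cls (oldE (D.arriving (x₀, !D.pos x₀)), false) := by
  have := Quot.sound (Corner.outIn (D := D.ins x₀) yy)
  rw [pos_yy, arr_yy, Bool.not_not] at this
  exact this

theorem in_y : cls (D := D) (x₀ := x₀) (oldE (D.arriving (x₀, D.pos x₀)), false) =
    cls (oldE (D.arriving (x₀, !D.pos x₀)), true) := by
  have := Quot.sound (Corner.inIn (D := D.ins x₀) yy)
  rw [pos_yy, arr_yy, arr_yy, Bool.not_not] at this
  exact this

theorem cls_corner (a b : D.Side) (h : D.Corner a b) :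
    cls (D := D) (x₀ := x₀) (oldE a.1, a.2) = cls (oldE b.1, b.2) := by
  cases h with
  | outOut x => exact Quot.sound (Corner.outOut (D := D.ins x₀) (old x))
  | inOut x =>
    by_cases hx : x = x₀
    · subst hx
      exact left_y.trans (left_z.trans left_x)
    · have := Quot.sound (Corner.inOut (D := D.ins x₀) (old x))
      rw [pos_old, arr_old, if_neg hx] at this
      exact this
  | inIn x =>
    by_cases hx : x = x₀
    · subst hx
      exact in_y
    · have := Quot.sound (Corner.inIn (D := D.ins x₀) (old x))
      rw [pos_old, arr_old, arr_old, if_neg hx, if_neg hx] at this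
      exact this
  | outIn x =>
    by_cases hx : x = x₀
    · subst hx
      exact right_x.trans (right_z.trans right_y)
    · have := Quot.sound (Corner.outIn (D := D.ins x₀) (old x))
      rw [pos_old, arr_old, if_neg hx] at this
      exact this

/-- The inverse map on faces. -/
def faceInv : D.Face ⊕ Bool → (D.ins x₀).Face :=
  Sum.elim (Quot.lift (fun s : D.Side => cls (oldE s.1, s.2)) cls_corner)
    (fun c => if c then cls ((zz, true), D.pos x₀) else cls ((yy, true), !D.pos x₀))

theorem faceInv_inl (s : D.Side) : faceInv (x₀ := x₀) (Sum.inl (Quot.mk _ s)) =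
    cls (oldE s.1, s.2) := rfl

theorem faceInv_true : faceInv (D := D) (x₀ := x₀) (Sum.inr true) =
    cls ((zz, true), D.pos x₀) := rfl

theorem faceInv_false : faceInv (D := D) (x₀ := x₀) (Sum.inr false) =
    cls ((yy, true), !D.pos x₀) := rfl

theorem faceInv_sideMap (s : (D.ins x₀).Side) : faceInv (sideMap s) = cls s := by
  obtain ⟨⟨x, b⟩, s⟩ := s
  induction x using ins_cases with
  | h1 x => rfl
  | h2 =>
    have o2 := out_y (D := D) (x₀ := x₀)
    have l1 := left_y (D := D) (x₀ := x₀)
    have r1 := right_y (D := D) (x₀ := x₀)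
    rw [sideMap_yy]
    rcases (D.pos x₀).eq_false_or_eq_true with hp | hp
    · simp only [hp, Bool.not_true] at o2 l1 r1 ⊢
      cases b <;> cases s
      · rw [if_pos (by rfl), faceInv_inl]; exact r1.symm
      · rw [if_neg (by simp), faceInv_false, hp]; exact o2.symm
      · rw [if_neg (by simp), faceInv_false, hp]; rfl
      · rw [if_pos (by rfl), faceInv_inl]; exact l1
    · simp only [hp, Bool.not_false] at o2 l1 r1 ⊢
      cases b <;> cases s
      · rw [if_neg (by simp), faceInv_false, hp]; exact o2
      · rw [if_pos (by rfl), faceInv_inl]; exact l1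
      · rw [if_pos (by rfl), faceInv_inl]; exact r1.symm
      · rw [if_neg (by simp), faceInv_false, hp]; rfl
  | h3 =>
    have o1 := out_z (D := D) (x₀ := x₀)
    have l1 := (left_y (D := D) (x₀ := x₀)).trans left_z
    have r1 := (right_z (D := D) (x₀ := x₀)).trans right_y
    rw [sideMap_zz]
    rcases (D.pos x₀).eq_false_or_eq_true with hp | hp
    · simp only [hp, Bool.not_true] at o1 l1 r1 ⊢
      cases b <;> cases s
      · rw [if_pos (by rfl), faceInv_true, hp]; exact o1
      · rw [if_neg (by simp), faceInv_inl]; exact l1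
      · rw [if_neg (by simp), faceInv_inl]; exact r1.symm
      · rw [if_pos (by rfl), faceInv_true, hp]
    · simp only [hp, Bool.not_false] at o1 l1 r1 ⊢
      cases b <;> cases s
      · rw [if_neg (by simp), faceInv_inl]; exact r1.symm
      · rw [if_pos (by rfl), faceInv_true, hp]; exact o1.symm
      · rw [if_pos (by rfl), faceInv_true, hp]
      · rw [if_neg (by simp), faceInv_inl]; exact l1

/-- The faces of the new diagram are the faces of the old one and two bigons. -/
def faceEquiv : (D.ins x₀).Face ≃ D.Face ⊕ Bool where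
  toFun := Quot.lift sideMap sideMap_corner
  invFun := faceInv
  left_inv := by
    intro q
    induction q using Quot.ind with
    | mk s => exact faceInv_sideMap s
  right_inv := by
    rintro (q | c)
    · induction q using Quot.ind
      rfl
    · cases c
      · show sideMap ((yy, true), !D.pos x₀) = _
        rw [sideMap_yy]
        rcases (D.pos x₀).eq_false_or_eq_true with hp | hp <;> simp [hp]
      · show sideMap ((zz, true), D.pos x₀) = _
        rw [sideMap_zz]
        rcases (D.pos x₀).eq_false_or_eq_true with hp | hp <;> simp [hp]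

/-- The class of a crossing of the new diagram. -/
def ccls (x : (D.ins x₀).X) : (D.ins x₀).GraphComponent := Quot.mk _ x

theorem ccls_yz : ccls (D := D) (x₀ := x₀) yy = ccls zz := Quot.sound ⟨true, rfl⟩

theorem ccls_zx : ccls (D := D) (x₀ := x₀) zz = ccls (old x₀) := Quot.sound ⟨true, rfl⟩

theorem ccls_old (x : D.X) (b : Bool) :
    ccls (x₀ := x₀) (old x) = ccls (old (D.next (x, b)).1) := by
  by_cases h : (D.next (x, b)).1 = x₀
  · have h1 : ccls (x₀ := x₀) (old x) = ccls yy := Quot.sound ⟨b, by
      have := next_old (x₀ := x₀) (x, b)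
      rw [if_pos h] at this
      exact congrArg Prod.fst this⟩
    rw [h]
    exact h1.trans (ccls_yz.trans ccls_zx)
  · exact Quot.sound ⟨b, by
      have := next_old (x₀ := x₀) (x, b)
      rw [if_neg h] at this
      exact congrArg Prod.fst this⟩

/-- The old crossing corresponding to a crossing of the new diagram. -/
def oldOf (x : (D.ins x₀).X) : D.X := Sum.elim id (fun _ => x₀) x

/-- The graph components are unchanged. -/
def compEquiv : (D.ins x₀).GraphComponent ≃ D.GraphComponent where
  toFun := Quot.lift (fun x => Quot.mk _ (oldOf x)) (by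
    rintro x y' ⟨b, rfl⟩
    induction x using ins_cases with
    | h1 x =>
      have h0 := next_old (x₀ := x₀) (x, b)
      by_cases h : (D.next (x, b)).1 = x₀
      · rw [if_pos h] at h0
        rw [show (old x, b) = oldE (x₀ := x₀) (x, b) from rfl, h0]
        exact Quot.sound ⟨b, h⟩
      · rw [if_neg h] at h0
        rw [show (old x, b) = oldE (x₀ := x₀) (x, b) from rfl, h0]
        exact Quot.sound ⟨b, rfl⟩
    | h2 => rfl
    | h3 => rfl)
  invFun := Quot.lift (fun x => ccls (old x)) (by
    rintro x y ⟨b, rfl⟩
    exact ccls_old x b)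
  left_inv := by
    intro q
    induction q using Quot.ind with
    | mk x =>
      induction x using ins_cases with
      | h1 x => rfl
      | h2 => exact (ccls_yz.trans ccls_zx).symm
      | h3 => exact ccls_zx.symm
  right_inv := by
    intro q
    induction q using Quot.ind
    rfl

/-- Inserting a bigon keeps the diagram planar. -/
theorem ins_planar (hD : D.Planar) : (D.ins x₀).Planar := by
  unfold Planar at hD ⊢
  rw [Nat.card_congr (faceEquiv (D := D) (x₀ := x₀)),
    Nat.card_congr (compEquiv (D := D) (x₀ := x₀)), Nat.card_sum]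
  have h1 : Nat.card (D.ins x₀).X = Nat.card D.X + 2 := by
    show Nat.card (D.X ⊕ Bool) = _
    rw [Nat.card_sum]
    simp
  have h2 : Nat.card (D.ins x₀).Edge = 2 * Nat.card (D.ins x₀).X := by
    rw [Nat.card_prod, mul_comm]
    simp
  have h3 : Nat.card D.Edge = 2 * Nat.card D.X := by
    rw [Nat.card_prod, mul_comm]
    simp
  rw [h3] at hD
  rw [h2, h1]
  have h4 : Nat.card Bool = 2 := by simp
  rw [h4]
  push_cast at hD ⊢
  linarith

end GaussDiagram

open GaussDiagram

/-- Insertion of a bigon just before `x₀`, as a link diagram. -/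
def LinkDiagram.ins (D : LinkDiagram) (x₀ : D.X) : LinkDiagram where
  toGaussDiagram := D.toGaussDiagram.ins x₀
  planar := GaussDiagram.ins_planar D.planar

theorem reidemeisterII_ins (D : LinkDiagram) (x₀ : D.X) : ReidemeisterII D (D.ins x₀) := by
  have hne : D.next.symm (x₀, false) ≠ D.next.symm (x₀, true) := by
    intro h
    have := D.next.symm.injective h
    simp at this
  refine ⟨old, yy, zz, D.next.symm (x₀, false), D.next.symm (x₀, true),
    Sum.inl_injective, ?_, ?_, ?_, ?_, fun x => rfl, ?_, rfl, hne, ?_, ?_, ?_⟩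
  · exact fun h => by cases h
  · rintro ⟨x, hx⟩; cases hx
  · rintro ⟨x, hx⟩; cases hx
  · intro x'
    induction x' using ins_cases with
    | h1 x => exact Or.inr (Or.inr ⟨x, rfl⟩)
    | h2 => exact Or.inl rfl
    | h3 => exact Or.inr (Or.inl rfl)
  · show (!D.pos x₀) ≠ D.pos x₀
    cases D.pos x₀ <;> simp
  · refine ⟨?_, rfl, ?_⟩
    · have := next_old (x₀ := x₀) (D.next.symm (x₀, false))
      rw [Equiv.apply_symm_apply, if_pos rfl] at this
      exact this
    · rw [Equiv.apply_symm_apply]
      rfl
  · left
    refine ⟨?_, rfl, ?_⟩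
    · have := next_old (x₀ := x₀) (D.next.symm (x₀, true))
      rw [Equiv.apply_symm_apply, if_pos rfl] at this
      exact this
    · rw [Equiv.apply_symm_apply]
      rfl
  · intro g hg1 hg2
    have h0 := next_old (x₀ := x₀) g
    rw [if_neg] at h0
    · exact h0
    · intro h
      have h' : D.next g = (x₀, (D.next g).2) := Prod.ext h rfl
      rcases Bool.eq_false_or_eq_true (D.next g).2 with hb | hb
      · rw [hb] at h'
        exact hg2 (by rw [← h', Equiv.symm_apply_apply])
      · rw [hb] at h'
        exact hg1 (by rw [← h', Equiv.symm_apply_apply])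

end Pool.Agent.Lib.MP_89478c_gt
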